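import Pool.Agent.Helper583.TCMain

/-!
Oracles for which Baire space is categorical: exact pairs.
-/

namespace Pool.Agent.Y375.TD

open Pool.Agent.Helper583.TC Pool.Agent.Helper583.TC.J3
open Pool.Agent.Helper583.TC.J2 (use_principle)

/-- Upper bounds of countable families avoiding countably many cones. -/
theorem cones_avoid (x : ℕ → ℕ → ℕ) (a : ℕ → ℕ → ℕ)
    (h : ∀ j k, ¬ Nat.RecursiveIn {g | ∃ i < k, g = orc (x i)} (orc (a j))) :
    ∃ b : ℕ → ℕ, (∀ k, Red (x k) b) ∧ ∀ j, ¬ Red (a j) b := by
  classical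
  -- the construction
  let good : ℕ → List ℕ → Prop := fun e s => ∃ r n m,
    m ∈ (Denumerable.ofNat Nat.Partrec.Code (Nat.unpair e).1).eval
      (Encodable.encode (fill x e s r, n)) ∧ m ≠ a (Nat.unpair e).2 n
  let w : ℕ → List ℕ → List ℕ := fun e s => if h : good e s then fill x e s h.choose else s
  let S : ℕ → List ℕ := fun e => Nat.rec [] (fun e s => w e s ++ [jn x (w e s).length]) e
  have hS0 : S 0 = [] := rfl
  have hS1 : ∀ e, S (e + 1) = w e (S e) ++ [jn x (w e (S e)).length] := fun e => rfl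
  have hw : ∀ e s, s <+: w e s := by
    intro e s
    by_cases h : good e s
    · have : w e s = fill x e s h.choose := dif_pos h
      rw [this]
      exact List.prefix_append _ _
    · have : w e s = s := dif_neg h
      rw [this]
  have hwS : ∀ e, w e (S e) <+: S (e + 1) := by
    intro e
    rw [hS1]
    exact List.prefix_append _ _
  have hSS : ∀ e, S e <+: S (e + 1) := fun e => (hw e (S e)).trans (hwS e)
  have hmono : ∀ e e', e ≤ e' → S e <+: S e' := by
    intro e e' hee
    induction e', hee using Nat.le_induction with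
    | base => exact List.prefix_rfl
    | succ e' _ ih => exact ih.trans (hSS e')
  have hlen : ∀ e, e ≤ (S e).length := by
    intro e
    induction e with
    | zero => simp
    | succ e ih =>
      have h1 := (hw e (S e)).length_le
      rw [hS1, List.length_append, List.length_singleton]
      omega
  have hpg : ∀ (l l' : List ℕ) (p : ℕ), l <+: l' → p < l.length → l'.getD p 0 = l.getD p 0 := by
    intro l l' p hl hp
    obtain ⟨l'', rfl⟩ := hl
    rw [List.getD_append _ _ _ _ hp]
  let b : ℕ → ℕ := fun p => (S (p + 1)).getD p 0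
  have hb : ∀ e p, p < (S e).length → b p = (S e).getD p 0 := by
    intro e p hp
    have hp1 : p < (S (p + 1)).length := lt_of_lt_of_le (Nat.lt_succ_self p) (hlen (p + 1))
    show (S (p + 1)).getD p 0 = (S e).getD p 0
    rcases le_total e (p + 1) with h1 | h1
    · exact hpg _ _ p (hmono _ _ h1) hp
    · exact (hpg _ _ p (hmono _ _ h1) hp1).symm
  -- new values
  have hnew : ∀ e p, (S e).length ≤ p → p < (S (e + 1)).length → (Nat.unpair p).1 < e →
      (S (e + 1)).getD p 0 = jn x p := by
    intro e p hp1 hp2 hp3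
    rw [hS1] at hp2 ⊢
    by_cases h1 : p < (w e (S e)).length
    · rw [List.getD_append _ _ _ _ h1]
      by_cases hg : good e (S e)
      · have hwe : w e (S e) = fill x e (S e) hg.choose := dif_pos hg
        rw [hwe] at h1 ⊢
        unfold fill at h1 ⊢
        rw [List.getD_append_right _ _ _ _ hp1]
        rw [List.length_append] at h1
        rw [List.getD_eq_getElem _ _ (by omega)]
        simp only [List.getElem_map, List.getElem_range]
        rw [show (S e).length + (p - (S e).length) = p by omega, if_pos hp3]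
      · have hwe : w e (S e) = S e := dif_neg hg
        rw [hwe] at h1
        omega
    · rw [List.length_append, List.length_singleton] at hp2
      have h2 : p = (w e (S e)).length := by omega
      rw [List.getD_append_right _ _ _ _ (by omega), h2]
      simp
  have hbX : ∀ e p, (S e).length ≤ p → (Nat.unpair p).1 < e → b p = jn x p := by
    intro e p hp1 hp2
    have h1 : ∀ e', e ≤ e' → p < (S e').length → (S e').getD p 0 = jn x p := by
      intro e' hee
      induction e', hee using Nat.le_induction with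
      | base => intro h; omega
      | succ e' he' ih =>
        intro h
        by_cases h2 : p < (S e').length
        · rw [hpg _ _ p (hSS e') h2]
          exact ih h2
        · exact hnew e' p (by omega) h (by omega)
    have h2 : p < (S (max e (p + 1))).length :=
      lt_of_lt_of_le (Nat.lt_of_succ_le (le_max_right e (p + 1))) (hlen _)
    rw [hb _ p h2]
    exact h1 _ (le_max_left _ _) h2
  have hpre : ∀ e, pre b (S e).length = S e := by
    intro e
    apply List.ext_getElem
    · simp [pre]
    · intro i h1 h2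
      have h3 := hb e i h2
      rw [List.getD_eq_getElem _ _ h2] at h3
      rw [← h3]
      simp [pre]
  refine ⟨b, ?_, ?_⟩
  · intro k
    show Nat.RecursiveIn {orc b} (orc (x k))
    obtain ⟨ℓ, hℓ⟩ : ∃ ℓ, ℓ = (S (k + 1)).length := ⟨_, rfl⟩
    have hp : Primrec (fun q : ℕ => if (Nat.unpair q).1 < ℓ then
        (pre (x k) ℓ).getD (Nat.unpair q).1 0 else (Nat.unpair q).2) := by
      apply Primrec.ite
      · exact Primrec.nat_lt.comp (Primrec.fst.comp Primrec.unpair) (Primrec.const ℓ)
      · exact (Primrec.list_getD 0).comp (Primrec.const (pre (x k) ℓ))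
          (Primrec.fst.comp Primrec.unpair)
      · exact Primrec.snd.comp Primrec.unpair
    have h1 := ri_comp (ri_prim (O := {orc b}) hp) (ri_pair
      (ri_prim (O := {orc b}) (f := fun n => n) Primrec.id)
      (ri_comp (Nat.RecursiveIn.oracle (O := {orc b}) (orc b) rfl)
        (ri_prim (O := {orc b}) (f := fun n => Nat.pair k n)
          (Primrec₂.natPair.comp (Primrec.const k) Primrec.id))))
    have h2 : x k = fun n => if (Nat.unpair (Nat.pair n (b (Nat.pair k n)))).1 < ℓ then
        (pre (x k) ℓ).getD (Nat.unpair (Nat.pair n (b (Nat.pair k n)))).1 0 else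
        (Nat.unpair (Nat.pair n (b (Nat.pair k n)))).2 := by
      funext n
      simp only [Nat.unpair_pair]
      by_cases hn : n < ℓ
      · rw [if_pos hn, pre_getD hn]
      · rw [if_neg hn, hbX (k + 1) (Nat.pair k n)]
        · simp [jn]
        · rw [← hℓ]
          exact (not_lt.1 hn).trans (Nat.right_le_pair k n)
        · simp
    rw [h2]
    exact h1
  · intro j₀ hRed
    obtain ⟨φ, hφ1, hφ2, hφ3⟩ := use_principle hRed
    obtain ⟨c, hc⟩ := Nat.Partrec.Code.exists_code.1 hφ1
    have hcφ : ∀ l n m, m ∈ c.eval (Encodable.encode ((l, n) : List ℕ × ℕ)) ↔ m ∈ φ (l, n) := by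
      intro l n m
      rw [hc]
      simp
    have hamem : ∀ n m, m ∈ orc (a j₀) n ↔ m = a j₀ n := by
      intro n m
      simp [orc]
    obtain ⟨e, he, he2⟩ : ∃ e, Denumerable.ofNat Nat.Partrec.Code (Nat.unpair e).1 = c ∧
        (Nat.unpair e).2 = j₀ :=
      ⟨Nat.pair (Encodable.encode c) j₀, by rw [Nat.unpair_pair]; exact Denumerable.ofNat_encode c,
        by rw [Nat.unpair_pair]⟩
    by_cases hg : good e (S e)
    · have hwe : w e (S e) = fill x e (S e) hg.choose := dif_pos hg
      obtain ⟨n, m, h1, h2⟩ := hg.choose_spec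
      rw [← hwe, he, hcφ] at h1
      rw [he2] at h2
      apply h2
      rw [← hamem, hφ3]
      refine ⟨(w e (S e)).length, ?_⟩
      have h3 : pre b (w e (S e)).length = w e (S e) := by
        have h4 := hpre (e + 1)
        apply List.ext_getElem
        · simp [pre]
        · intro i h5 h6
          have h7 : i < (S (e + 1)).length := lt_of_lt_of_le h6 (hwS e).length_le
          have h8 := hb (e + 1) i h7
          rw [hpg _ _ i (hwS e) h6, List.getD_eq_getElem _ _ h6] at h8
          rw [← h8]
          simp [pre]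
      rw [h3]
      exact h1
    · apply h j₀ e
      have hg' : ∀ r n m, m ∈ c.eval (Encodable.encode (fill x e (S e) r, n)) → m = a j₀ n := by
        intro r n m hm
        by_contra hne
        apply hg
        refine ⟨r, n, m, ?_, by rw [he2]; exact hne⟩
        rw [he]
        exact hm
      refine ri_forced x (a j₀) e (S e) c ?_ hg'
      intro n
      have h1 := (hφ3 n (a j₀ n)).1 ((hamem n (a j₀ n)).2 rfl)
      obtain ⟨k, hk⟩ := h1
      -- enlarge k
      obtain ⟨d, hd⟩ : ∃ d, d = k + (S e).length := ⟨_, rfl⟩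
      refine ⟨(List.range k).map (fun j => b ((S e).length + j)), ?_⟩
      rw [hcφ]
      have h2 : fill x e (S e) ((List.range k).map (fun j => b ((S e).length + j))) =
          pre b ((S e).length + k) := by
        unfold fill pre
        rw [List.range_add, List.map_append, List.length_map, List.length_range]
        congr 1
        · exact (hpre e).symm
        · rw [List.map_map]
          apply List.map_congr_left
          intro j hj
          rw [List.mem_range] at hj
          by_cases h3 : (Nat.unpair ((S e).length + j)).1 < e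
          · rw [if_pos h3]
            exact (hbX e _ (by omega) h3).symm
          · rw [if_neg h3, List.getD_eq_getElem _ _ (by simpa using hj)]
            simp
      rw [h2]
      refine hφ2 (pre b k) _ n (a j₀ n) ?_ hk
      unfold pre
      rw [Nat.add_comm, List.range_add, List.map_append]
      exact List.prefix_append _ _


theorem countable_cone (a : ℕ → ℕ) : {x : ℕ → ℕ | Red x a}.Countable := by
  have hsub : {x : ℕ → ℕ | Red x a} ⊆ ⋃ c : Nat.Partrec.Code, {x : ℕ → ℕ | ∀ n m,
      m = x n ↔ ∃ k, m ∈ c.eval (Encodable.encode ((pre a k, n) : List ℕ × ℕ))} := by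
    intro x hx
    obtain ⟨φ, hφ1, _, hφ3⟩ := use_principle hx
    obtain ⟨c, hc⟩ := Nat.Partrec.Code.exists_code.1 hφ1
    refine Set.mem_iUnion.2 ⟨c, fun n m => ?_⟩
    have hcφ : ∀ l n m, m ∈ c.eval (Encodable.encode ((l, n) : List ℕ × ℕ)) ↔ m ∈ φ (l, n) := by
      intro l n m
      rw [hc]
      simp
    have h1 : m ∈ orc x n ↔ m = x n := by simp [orc]
    rw [← h1, hφ3]
    constructor
    · rintro ⟨k, hk⟩
      exact ⟨k, (hcφ _ _ _).2 hk⟩
    · rintro ⟨k, hk⟩
      exact ⟨k, (hcφ _ _ _).1 hk⟩
  refine Set.Countable.mono hsub (Set.countable_iUnion fun c => Set.Subsingleton.countable ?_)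
  intro x hx x' hx'
  funext n
  have h1 := (hx n (x n)).1 rfl
  exact (hx' n (x n)).2 h1

/-- `z` is computable from a real that is a singleton co-analytic class -/
def Low (z : ℕ → ℕ) : Prop := ∃ y, Sg y ∧ Red z (nb y)

theorem low_of_finite (e : ℕ → ℕ → Bool) (he : ∀ i, Sg (e i)) {z : ℕ → ℕ} {k : ℕ}
    (hk : Nat.RecursiveIn {g | ∃ i < k, g = orc (nb (e i))} (orc z)) : Low z := by
  obtain ⟨x, hx, hxk⟩ := join_finite e he k
  refine ⟨x, hx, ?_⟩
  unfold Red
  refine hk.subst ?_
  rintro g ⟨i, hi, rfl⟩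
  exact hxk i hi

theorem exists_enum : ∃ e : ℕ → ℕ → Bool, (∀ i, Sg (e i)) ∧ ∀ y, Sg y → ∃ i, e i = y := by
  obtain ⟨e, he⟩ := J4.cls_countable.exists_eq_range sg_nonempty
  refine ⟨e, ?_, ?_⟩
  · intro i
    have : e i ∈ Set.range e := ⟨i, rfl⟩
    rw [← he] at this
    exact this
  · intro y hy
    have hy' : y ∈ Set.range e := by rw [← he]; exact hy
    exact hy'

/-- no categorical oracle is computable from one singleton class -/
theorem not_low {a : ℕ → ℕ} (ha : Cat a) : ¬ Low a := by
  rintro ⟨x, hx, hax⟩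
  obtain ⟨Wx, hWx, hx'⟩ := hx
  obtain ⟨W1, hW1, e1⟩ := J4.cls_evn Wx hWx
  obtain ⟨W2, hW2, e2⟩ := J7.cls_notRed
  obtain ⟨W3, hW3, e3⟩ := J4.cls_and W1 W2 hW1 hW2
  obtain ⟨z, hz⟩ := exists_not_red (nb x)
  have hne : ∃ y, Cls W3 y := by
    refine ⟨jnb x z, ?_⟩
    rw [e3, e1, e2, hx']
    simpa using hz
  obtain ⟨y, hy, hya⟩ := lower ha hW3 hne
  rw [e3, e1, e2, hx'] at hy
  obtain ⟨hy1, hy2⟩ := hy
  apply hy2
  rw [hy1]
  exact red_trans (red_odn y) (red_trans hya hax)

/-- **Exact pairs.** -/
theorem exact_pair (A : Set (ℕ → ℕ)) (hA : A.Countable) :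
    ∃ b : ℕ → ℕ, Cat b ∧ ∀ a ∈ A, ∀ z, Red z a → Red z b → Low z := by
  classical
  obtain ⟨e, he1, he2⟩ := exists_enum
  let C : Set (ℕ → ℕ) := {z | (∃ a ∈ A, Red z a) ∧ ¬ Low z}
  have hC : C.Countable := by
    refine Set.Countable.mono (s₂ := ⋃ a ∈ A, {z | Red z a}) ?_
      (hA.biUnion fun a _ => countable_cone a)
    rintro z ⟨⟨a, ha, hz⟩, _⟩
    exact Set.mem_biUnion ha hz
  have hCat : ∀ b : ℕ → ℕ, (∀ k, Red (nb (e k)) b) → Cat b := by
    intro b hb
    refine upper fun y hy => ?_
    obtain ⟨i, rfl⟩ := he2 y hy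
    exact hb i
  rcases C.eq_empty_or_nonempty with hE | hne
  · obtain ⟨b, hb⟩ := exists_cat
    refine ⟨b, hb, fun a ha z hza _ => ?_⟩
    by_contra hlow
    have : z ∈ C := ⟨⟨a, ha, hza⟩, hlow⟩
    rw [hE] at this
    exact this
  · obtain ⟨f, hf⟩ := hC.exists_eq_range hne
    have hfC : ∀ j, f j ∈ C := fun j => hf ▸ ⟨j, rfl⟩
    obtain ⟨b, hb1, hb2⟩ := cones_avoid (fun i => nb (e i)) f (fun j k hk =>
      (hfC j).2 (low_of_finite e he1 hk))
    refine ⟨b, hCat b hb1, fun a ha z hza hzb => ?_⟩
    by_contra hlow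
    have hz : z ∈ C := ⟨⟨a, ha, hza⟩, hlow⟩
    rw [hf] at hz
    obtain ⟨j, rfl⟩ := hz
    exact hb2 j hzb

theorem red_refl' (z : ℕ → ℕ) : Red z z := Nat.RecursiveIn.oracle _ rfl

/-- what all categorical oracles compute -/
theorem low_iff (z : ℕ → ℕ) : Low z ↔ ∀ b, Cat b → Red z b := by
  constructor
  · rintro ⟨y, hy, hz⟩ b hb
    exact red_trans hz (cat_iff.1 hb y hy)
  · intro h
    obtain ⟨b, hb, hb2⟩ := exact_pair {z} (Set.countable_singleton z)
    exact hb2 z rfl z (red_refl' z) (h b hb)

/-- an uncountable family of categorical oracles, any two of which form an exact pair -/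
theorem uncountable_family : ∃ B : Set (ℕ → ℕ), ¬ B.Countable ∧ (∀ a ∈ B, Cat a) ∧
    ∀ a ∈ B, ∀ b ∈ B, a ≠ b → ∀ z, Red z a → Red z b → Low z := by
  classical
  let F : Set (Set (ℕ → ℕ)) := {B | (∀ a ∈ B, Cat a) ∧
    ∀ a ∈ B, ∀ b ∈ B, a ≠ b → ∀ z, Red z a → Red z b → Low z}
  obtain ⟨B, hB⟩ := zorn_subset F (by
    intro c hc hch
    refine ⟨⋃₀ c, ⟨?_, ?_⟩, fun s hs => Set.subset_sUnion_of_mem hs⟩
    · rintro a ⟨s, hs, ha⟩
      exact (hc hs).1 a ha
    · rintro a ⟨s, hs, ha⟩ b ⟨s', hs', hb⟩ hab
      rcases hch.total hs hs' with h | h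
      · exact (hc hs').2 a (h ha) b hb hab
      · exact (hc hs).2 a ha b (h hb) hab)
  refine ⟨B, ?_, hB.prop.1, hB.prop.2⟩
  intro hcount
  obtain ⟨b, hb1, hb2⟩ := exact_pair B hcount
  have hbB : b ∉ B := fun h => not_low hb1 (hb2 b h b (red_refl' b) (red_refl' b))
  apply hbB
  have h1 : insert b B ∈ F := by
    refine ⟨?_, ?_⟩
    · rintro a (rfl | ha)
      · exact hb1
      · exact hB.prop.1 a ha
    · rintro a (rfl | ha) c (rfl | hc) hac z hz1 hz2
      · exact absurd rfl hac
      · exact hb2 c hc z hz2 hz1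
      · exact hb2 a ha z hz1 hz2
      · exact hB.prop.2 a ha c hc hac z hz1 hz2
  exact hB.le_of_ge h1 (Set.subset_insert b B) (Set.mem_insert b B)

end Pool.Agent.Y375.TD
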